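import Pool.Agent.Y173.SH.Weak

/-!
# Uniruledness and weak uniruledness of `(P^2, c (L_1 + ... + L_d))`: the exact answer

`L_1, ..., L_d` are lines in general position. If all coefficients are equal to `c`, the pair is
weakly uniruled if and only if `d c < 3`, and uniruled if and only if `d c < 3` and, for `d ≥ 7`,
`c < 2 / (d - 1)`. So the two notions are equivalent for `d` lines with equal coefficients if and
only if `d ≤ 6`.
-/

set_option autoImplicit false

namespace Pool.Agent.Results.MP_4be736_ag.EqualCoefficients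

open Pool.Agent.H436R3 Pool.Agent.Y173.SH

/-- **(1)** For every `d` and every rational `0 < c ≤ 1` there is a smooth orbifold pair `(P^2, D)`
with support `d` lines in general position and all coefficients `c`.
**(2)** If all coefficients are `c`, the pair is weakly uniruled if and only if `deg (K + D) < 0`,
and it is uniruled (with `D_C` the smallest divisor for which the curve is an orbifold morphism) if
and only if `deg (K + D) < 0` and, for `d ≥ 7`, `c < 2 / (d - 1)`; then the orbifold rational curves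
can be taken to be lines or smooth conics. With `D_C` given by the printed formula the pair is
uniruled if and only if `(d - 1) c < 2`.
**(3)** If all coefficients (not necessarily equal) are at least `2 / (d - 1)`, `d ≥ 3`, then the
degree of `K_C + D_C` is `≥ 0` for all rational curves through a very general point, for the printed
formula, and for `d ≥ 7` also for the smallest divisor.
**(4)** Weakly uniruled implies uniruled for all pairs with `d` lines with equal coefficients if and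
only if `d ≤ 6`. -/
theorem result :
    (∀ (d : ℕ) (c : ℚ), 0 < c → c ≤ 1 → ∃ P : PlaneOrbifold d, ∀ j, P.c j = c) ∧
    (∀ (d : ℕ) (P : PlaneOrbifold d) (c : ℚ), (∀ j, P.c j = c) →
      (P.IsWeaklyUniruled ↔ P.degKD < 0) ∧
      (P.IsUniruledWith P.multMin ↔ P.degKD < 0 ∧ (7 ≤ d → c < 2 / (d - 1))) ∧
      (P.degKD < 0 ∧ (7 ≤ d → c < 2 / (d - 1)) → VeryGeneral fun x => ∃ γ : RatCurve,
        (γ.e = 1 ∨ γ.e = 2 ∧ LinearIndependent ℂ γ.f) ∧ (∀ j, γ.pull (P.ℓ j) ≠ 0) ∧
          P.degC γ (P.multMin γ) < 0 ∧ γ.Through x) ∧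
      (1 ≤ d → (P.IsUniruledWith P.multLit ↔ (d - 1 : ℚ) * c < 2))) ∧
    (∀ (d : ℕ) (P : PlaneOrbifold d), 3 ≤ d → (∀ j, (2 : ℚ) / (d - 1) ≤ P.c j) →
      VeryGeneral fun x => ∀ γ : RatCurve, 1 ≤ γ.e → (∀ j, γ.pull (P.ℓ j) ≠ 0) → γ.Through x →
        (7 ≤ d → 0 ≤ P.degC γ (P.multMin γ)) ∧ 0 ≤ P.degC γ (P.multLit γ)) ∧
    ∀ d : ℕ, (∀ P : PlaneOrbifold d, (∀ i j, P.c i = P.c j) → P.IsWeaklyUniruled →
      P.IsUniruledWith P.multMin) ↔ d ≤ 6 := by
  have hex : ∀ (d : ℕ) (c : ℚ), 0 < c → c ≤ 1 → ∃ P : PlaneOrbifold d, ∀ j, P.c j = c :=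
    fun d c h0 h1 => ⟨momentOrbifold d c h0 h1, fun _ => rfl⟩
  have hcur : ∀ (d : ℕ) (P : PlaneOrbifold d), VeryGeneral (LC P) →
      VeryGeneral fun x => ∃ γ : RatCurve,
        (γ.e = 1 ∨ γ.e = 2 ∧ LinearIndependent ℂ γ.f) ∧ (∀ j, γ.pull (P.ℓ j) ≠ 0) ∧
          P.degC γ (P.multMin γ) < 0 ∧ γ.Through x := by
    rintro d P ⟨Z, hZ, h1⟩
    refine ⟨Z, hZ, fun x hx hn => ?_⟩
    obtain ⟨γ, δ, h2, h3, h4⟩ := h1 x hx hn
    exact ⟨γ, h4, h2.1.not_subset, degC_of_orb h2, h3⟩
  refine ⟨hex, fun d P c hc => ?_, fun d P hd hP => veryGeneral_deg hd P hP,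
    fun d => ⟨fun h => ?_, fun hd P hP hK => ?_⟩⟩
  · obtain ⟨h1, h2, h3⟩ := classifyW P hc
    exact ⟨h1, h2, fun h => hcur d P (((classify P hc).out 2 1).1 h), h3⟩
  · by_contra hcon
    have h7 : 7 ≤ d := by omega
    have hd0 : (7 : ℚ) ≤ d := by exact_mod_cast h7
    have hd1 : (0 : ℚ) < d - 1 := by linarith
    obtain ⟨P, hP⟩ := hex d (2 / (d - 1)) (by positivity) (by rw [div_le_one hd1]; linarith)
    have hK : P.degKD < 0 := by
      rw [degKD_eq P hP]
      have h2 : (d : ℚ) * (2 / (d - 1)) = 2 * d / (d - 1) := by ring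
      rw [h2]
      have h3 : 2 * (d : ℚ) / (d - 1) < 3 := by
        rw [div_lt_iff₀ hd1]
        linarith
      linarith
    obtain ⟨h1, h2, -⟩ := classifyW P hP
    exact absurd ((h2.1 (h P (fun i j => by rw [hP, hP]) (h1.2 hK))).2 h7) (lt_irrefl _)
  · rcases Nat.eq_zero_or_pos d with h0 | h0
    · subst h0
      obtain ⟨Z, hZ, h1⟩ := hcur 0 P (positive P (c := 0) (fun j => j.elim0) zero_le_one (by simp)
        (by simp))
      refine ⟨Z, hZ, fun x hx hn => ?_⟩
      obtain ⟨γ, h2, h3, h4, h5⟩ := h1 x hx hn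
      exact ⟨γ, by rcases h2 with h2 | h2 <;> omega, h3, h4, h5⟩
    · obtain ⟨h1, h2, -⟩ := classifyW P (c := P.c ⟨0, h0⟩) (fun j => hP _ _)
      exact h2.2 ⟨h1.1 hK, fun h => by omega⟩

end Pool.Agent.Results.MP_4be736_ag.EqualCoefficients
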